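import Mathlib
import Pool.Agent.R488.TM

/-!
# Renormalisation of the ratios of the Thue-Morse-twisted Fibonacci sequence
-/

set_option autoImplicit false

namespace Pool.Agent.W24.TMR

open Pool.Agent.R488.TM Set

/-- `q m = X m / Y m`. -/
def q (m : ℕ) : ℚ := X m / Y m

/-- the product of two consecutive Thue-Morse signs -/
def sg (m : ℕ) : ℤ := t (m + 1) * t m

def f (s : ℤ) (x : ℚ) : ℚ := ((1 + s) * x + 1) / (x + 1)

lemma sg_even (m : ℕ) : sg (2 * m) = -1 := by
  unfold sg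
  rw [t_odd, t_even]
  linear_combination -t_sq m

lemma sg_odd (m : ℕ) : sg (2 * m + 1) = -sg m := by
  unfold sg
  rw [show 2 * m + 1 + 1 = 2 * (m + 1) by ring, t_even, t_odd]
  ring

lemma sg_cases (m : ℕ) : sg m = 1 ∨ sg m = -1 := tt_cases _ _

lemma Ypos (m : ℕ) : (0 : ℚ) < Y m := by
  have := (XY_pos m).2.1
  exact_mod_cast (by omega : 0 < Y m)

lemma Xnn (m : ℕ) : (0 : ℚ) ≤ X m := by
  have := (XY_pos m).1
  exact_mod_cast this

lemma Xpos (m : ℕ) (hm : 1 ≤ m) : (0 : ℚ) < X m := by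
  obtain ⟨h1, h2, h3, h4⟩ := XY_pos m
  have := h4 hm
  exact_mod_cast (by omega : 0 < X m)

lemma q_nn (m : ℕ) : 0 ≤ q m := div_nonneg (Xnn m) (Ypos m).le

lemma q_pos (m : ℕ) (hm : 1 ≤ m) : 0 < q m := div_pos (Xpos m hm) (Ypos m)

lemma q_le (m : ℕ) : q m ≤ 2 := by
  unfold q
  rw [div_le_iff₀ (Ypos m)]
  have := (XY_pos m).2.2.1
  exact_mod_cast this

lemma q_zero : q 0 = 0 := by simp [q, X_zero]

lemma q_succ (m : ℕ) : q (m + 1) = f (sg m) (q m) := by
  unfold q f
  rw [X_succ, Y_succ]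
  have h1 := Ypos m
  have h2 := Xnn m
  have h3 : (X m : ℚ) + Y m ≠ 0 := by positivity
  have h4 : (X m : ℚ) / Y m + 1 ≠ 0 := by positivity
  unfold sg
  push_cast
  field_simp

/-- the renormalised steps -/
def F : ℕ → ℤ → ℚ → ℚ
  | 0, s, x => f s x
  | l + 1, s, x => F l (-s) (F l (-1) x)

lemma q_F (l : ℕ) : ∀ r : ℕ, q (2 ^ l * (r + 1)) = F l (sg r) (q (2 ^ l * r)) := by
  induction l with
  | zero => intro r; simpa [F] using q_succ r
  | succ l ih =>
    intro r
    have e1 : 2 ^ (l + 1) * (r + 1) = 2 ^ l * (2 * r + 1 + 1) := by ring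
    have e2 : 2 ^ (l + 1) * r = 2 ^ l * (2 * r) := by ring
    rw [e1, ih, ih, sg_odd, sg_even, e2]
    rfl

lemma f_nn (s : ℤ) (hs : s = 1 ∨ s = -1) (x : ℚ) (hx : 0 ≤ x) : 0 ≤ f s x := by
  unfold f
  rcases hs with rfl | rfl <;> push_cast <;> apply div_nonneg <;> nlinarith

lemma f_one_mono : MonotoneOn (f 1) (Ici 0) := by
  intro x hx y hy hxy
  have hx' : (0 : ℚ) ≤ x := hx
  have hy' : (0 : ℚ) ≤ y := hy
  unfold f
  rw [div_le_div_iff₀ (by linarith) (by linarith)]
  push_cast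
  nlinarith

lemma f_neg_anti : AntitoneOn (f (-1)) (Ici 0) := by
  intro x hx y hy hxy
  have hx' : (0 : ℚ) ≤ x := hx
  have hy' : (0 : ℚ) ≤ y := hy
  unfold f
  rw [div_le_div_iff₀ (by linarith) (by linarith)]
  push_cast
  nlinarith

lemma F_nn (l : ℕ) : ∀ (s : ℤ), (s = 1 ∨ s = -1) → ∀ x : ℚ, 0 ≤ x → 0 ≤ F l s x := by
  induction l with
  | zero => intro s hs x hx; exact f_nn s hs x hx
  | succ l ih =>
    intro s hs x hx
    show 0 ≤ F l (-s) (F l (-1) x)
    apply ih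
    · rcases hs with rfl | rfl <;> simp
    · exact ih _ (Or.inr rfl) x hx

lemma F_maps (l : ℕ) (s : ℤ) (hs : s = 1 ∨ s = -1) : MapsTo (F l s) (Ici 0) (Ici 0) :=
  fun x hx => F_nn l s hs x hx

lemma F_mono (l : ℕ) : MonotoneOn (F l 1) (Ici 0) ∧ AntitoneOn (F l (-1)) (Ici 0) := by
  induction l with
  | zero => exact ⟨f_one_mono, f_neg_anti⟩
  | succ l ih =>
    have hm := F_maps l (-1) (Or.inr rfl)
    constructor
    · exact (ih.2.comp ih.2 hm)
    · have : AntitoneOn (fun x => F l 1 (F l (-1) x)) (Ici 0) :=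
        fun x hx y hy hxy => ih.1 (hm hy) (hm hx) (ih.2 hx hy hxy)
      intro x hx y hy hxy
      show F l (- -1) (F l (-1) y) ≤ F l (- -1) (F l (-1) x)
      rw [neg_neg]
      exact this hx hy hxy

lemma F_one (l : ℕ) : (Even l → ∀ x : ℚ, 0 ≤ x → F l (-1) x ≤ 1 ∧ 1 ≤ F l 1 x) ∧
    (Odd l → ∀ x : ℚ, 0 ≤ x → F l 1 x ≤ 1 ∧ 1 ≤ F l (-1) x) := by
  induction l with
  | zero =>
    refine ⟨fun _ x hx => ?_, fun h => absurd h (by decide)⟩
    show f (-1) x ≤ 1 ∧ 1 ≤ f 1 x
    unfold f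
    rw [div_le_one (by linarith), le_div_iff₀ (by linarith)]
    push_cast
    constructor <;> nlinarith
  | succ l ih =>
    have key : ∀ x, F (l + 1) 1 x = F l (-1) (F l (-1) x) := fun x => rfl
    have key2 : ∀ x, F (l + 1) (-1) x = F l 1 (F l (-1) x) := by
      intro x
      show F l (- -1) _ = _
      rw [neg_neg]
    refine ⟨fun h x hx => ?_, fun h x hx => ?_⟩
    · have ho : Odd l := by
        rcases Nat.even_or_odd l with h1 | h1
        · exact absurd h (by simpa [Nat.even_add_one] using h1)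
        · exact h1
      have h0 := F_nn l (-1) (Or.inr rfl) x hx
      rw [key, key2]
      exact ih.2 ho _ h0
    · have he : Even l := by
        rcases Nat.even_or_odd l with h1 | h1
        · exact h1
        · exact absurd h (by simpa [Nat.odd_add_one] using h1)
      have h0 := F_nn l (-1) (Or.inr rfl) x hx
      rw [key, key2]
      exact ih.1 he _ h0

lemma sg_zero : sg 0 = -1 := sg_even 0
lemma sg_one : sg 1 = 1 := by rw [show 1 = 2 * 0 + 1 by ring, sg_odd, sg_zero]; norm_num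
lemma sg_two : sg 2 = -1 := sg_even 1
lemma sg_four : sg 4 = -1 := sg_even 2
lemma sg_five : sg 5 = 1 := by rw [show 5 = 2 * 2 + 1 by ring, sg_odd, sg_two]; norm_num

/-- `σ_r = 1` forces `r` to be odd. -/
lemma odd_of_sg {r : ℕ} (h : sg r = 1) : ∃ j, r = 2 * j + 1 := by
  rcases Nat.even_or_odd' r with ⟨j, hj | hj⟩
  · rw [hj, sg_even] at h; norm_num at h
  · exact ⟨j, hj⟩

/-- the upper bound at even levels -/
lemma upper_even {l : ℕ} (hl : Even l) (r : ℕ) : q (2 ^ l * r) ≤ q (2 ^ l * 2) := by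
  have hF := (F_one l).1 hl
  obtain ⟨hm, ha⟩ := F_mono l
  have h1 : q (2 ^ l * 1) = F l (-1) 0 := by
    have := q_F l 0
    rw [sg_zero, Nat.mul_zero, q_zero] at this
    exact this
  have h2 : q (2 ^ l * 2) = F l 1 (q (2 ^ l * 1)) := by
    have := q_F l 1
    rw [sg_one] at this
    exact this
  rcases Nat.eq_zero_or_pos r with rfl | hr
  · rw [Nat.mul_zero, q_zero]; exact q_nn _
  obtain ⟨s, rfl⟩ : ∃ s, r = s + 1 := ⟨r - 1, by omega⟩
  rw [q_F]
  rcases sg_cases s with h | h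
  · obtain ⟨j, rfl⟩ := odd_of_sg h
    rw [h, h2, h1, q_F, sg_even]
    apply hm
    · exact F_nn _ _ (Or.inr rfl) _ (q_nn _)
    · exact F_nn _ _ (Or.inr rfl) _ le_rfl
    · exact ha (by exact (le_refl (0 : ℚ))) (q_nn _) (q_nn _)
  · rw [h, h2]
    exact ((hF _ (q_nn _)).1).trans (hF _ (q_nn _)).2

/-- the upper bound at odd levels -/
lemma upper_odd {l : ℕ} (hl : Odd l) (r : ℕ) : q (2 ^ l * r) ≤ q (2 ^ l * 1) := by
  have hF := (F_one l).2 hl
  obtain ⟨hm, ha⟩ := F_mono l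
  have h1 : q (2 ^ l * 1) = F l (-1) 0 := by
    have := q_F l 0
    rw [sg_zero, Nat.mul_zero, q_zero] at this
    exact this
  rcases Nat.eq_zero_or_pos r with rfl | hr
  · rw [Nat.mul_zero, q_zero]; exact q_nn _
  obtain ⟨s, rfl⟩ : ∃ s, r = s + 1 := ⟨r - 1, by omega⟩
  rw [q_F, h1]
  rcases sg_cases s with h | h
  · rw [h]
    exact ((hF _ (q_nn _)).1).trans (hF _ le_rfl).2
  · rw [h]
    exact ha (by exact (le_refl (0 : ℚ))) (q_nn _) (q_nn _)

/-- the lower bound at even levels -/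
lemma lower_even {l : ℕ} (hl : Even l) (r : ℕ) (hr : 1 ≤ r) : q (2 ^ l * 3) ≤ q (2 ^ l * r) := by
  have hF := (F_one l).1 hl
  obtain ⟨hm, ha⟩ := F_mono l
  have h3 : q (2 ^ l * 3) = F l (-1) (q (2 ^ l * 2)) := by
    have := q_F l 2
    rw [sg_two] at this
    exact this
  obtain ⟨s, rfl⟩ : ∃ s, r = s + 1 := ⟨r - 1, by omega⟩
  rw [h3, q_F l s]
  rcases sg_cases s with h | h
  · rw [h]
    exact ((hF _ (q_nn _)).1).trans (hF _ (q_nn _)).2
  · rw [h]
    exact ha (q_nn _) (q_nn _) (upper_even hl s)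

lemma q_five {l : ℕ} (hl : Odd l) (j : ℕ) : q (2 ^ l * 5) ≤ q (2 ^ l * (2 * j + 1)) := by
  obtain ⟨hm, ha⟩ := F_mono l
  have h5 : q (2 ^ l * 5) = F l (-1) (q (2 ^ l * 4)) := by
    have := q_F l 4
    rw [sg_four] at this
    exact this
  have h6 : q (2 ^ l * (2 * j + 1)) = F l (-1) (q (2 ^ l * (2 * j))) := by rw [q_F, sg_even]
  rw [h5, h6]
  apply ha (q_nn _) (q_nn _)
  have he : Even (l + 1) := hl.add_one
  have := upper_even he j
  have e1 : 2 ^ (l + 1) * j = 2 ^ l * (2 * j) := by ring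
  have e2 : 2 ^ (l + 1) * 2 = 2 ^ l * 4 := by ring
  rwa [e1, e2] at this

/-- the lower bound at odd levels -/
lemma lower_odd {l : ℕ} (hl : Odd l) (r : ℕ) (hr : 1 ≤ r) : q (2 ^ l * 6) ≤ q (2 ^ l * r) := by
  have hF := (F_one l).2 hl
  obtain ⟨hm, ha⟩ := F_mono l
  have h6 : q (2 ^ l * 6) = F l 1 (q (2 ^ l * 5)) := by
    have := q_F l 5
    rw [sg_five] at this
    exact this
  obtain ⟨s, rfl⟩ : ∃ s, r = s + 1 := ⟨r - 1, by omega⟩
  rw [h6, q_F l s]
  rcases sg_cases s with h | h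
  · obtain ⟨j, rfl⟩ := odd_of_sg h
    rw [h]
    exact hm (q_nn _) (q_nn _) (q_five hl j)
  · rw [h]
    exact ((hF _ (q_nn _)).1).trans (hF _ (q_nn _)).2

lemma exists_max (l : ℕ) : ∃ r, 1 ≤ r ∧ ∀ s, q (2 ^ l * s) ≤ q (2 ^ l * r) := by
  rcases Nat.even_or_odd l with h | h
  · exact ⟨2, by norm_num, upper_even h⟩
  · exact ⟨1, le_rfl, upper_odd h⟩

lemma exists_min (l : ℕ) : ∃ r, 1 ≤ r ∧ ∀ s, 1 ≤ s → q (2 ^ l * r) ≤ q (2 ^ l * s) := by
  rcases Nat.even_or_odd l with h | h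
  · exact ⟨3, by norm_num, lower_even h⟩
  · exact ⟨6, by norm_num, lower_odd h⟩

lemma sg_block {l r i : ℕ} (hi : i + 1 < 2 ^ l) : sg (2 ^ l * r + i) = sg i := by
  unfold sg
  rw [Nat.add_assoc, t_add l r (i + 1) hi, t_add l r i (by omega)]
  linear_combination t (i + 1) * t i * t_sq r

/-- inside a block the ratio is a monotone function of the ratio at its start -/
lemma block (l : ℕ) : ∀ j : ℕ, j < 2 ^ l → ∃ g : ℚ → ℚ, MapsTo g (Ici 0) (Ici 0) ∧
    (MonotoneOn g (Ici 0) ∨ AntitoneOn g (Ici 0)) ∧ ∀ r, q (2 ^ l * r + j) = g (q (2 ^ l * r)) := by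
  intro j
  induction j with
  | zero => intro _; exact ⟨id, fun x hx => hx, Or.inl (monotone_id.monotoneOn _), fun r => rfl⟩
  | succ j ih =>
    intro hj
    obtain ⟨g, hg1, hg2, hg3⟩ := ih (by omega)
    refine ⟨fun x => f (sg j) (g x), ?_, ?_, ?_⟩
    · intro x hx
      exact f_nn _ (sg_cases j) _ (hg1 hx)
    · rcases sg_cases j with h | h <;> rw [h] <;> rcases hg2 with hg | hg
      · exact Or.inl (f_one_mono.comp hg hg1)
      · exact Or.inr (fun x hx y hy hxy => f_one_mono (hg1 hy) (hg1 hx) (hg hx hy hxy))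
      · exact Or.inr (fun x hx y hy hxy => f_neg_anti (hg1 hx) (hg1 hy) (hg hx hy hxy))
      · exact Or.inl (f_neg_anti.comp hg hg1)
    · intro r
      rw [← Nat.add_assoc, q_succ, hg3, sg_block hj]

/-- In every residue class modulo `2 ^ l` the ratio `q` attains its maximum and its minimum over the
positive integers. -/
lemma class_ext (l j : ℕ) (hj : j < 2 ^ l) :
    (∃ r, 1 ≤ 2 ^ l * r + j ∧ ∀ s, 1 ≤ 2 ^ l * s + j → q (2 ^ l * s + j) ≤ q (2 ^ l * r + j)) ∧
    (∃ r, 1 ≤ 2 ^ l * r + j ∧ ∀ s, 1 ≤ 2 ^ l * s + j → q (2 ^ l * r + j) ≤ q (2 ^ l * s + j)) := by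
  obtain ⟨a, ha1, ha2⟩ := exists_max l
  obtain ⟨b, hb1, hb2⟩ := exists_min l
  have hpos : 0 < 2 ^ l := by positivity
  rcases Nat.eq_zero_or_pos j with rfl | hj0
  · simp only [Nat.add_zero]
    refine ⟨⟨a, Nat.mul_pos hpos ha1, fun s _ => ha2 s⟩, ⟨b, Nat.mul_pos hpos hb1, fun s hs => ?_⟩⟩
    apply hb2
    by_contra h
    have : s = 0 := by omega
    rw [this] at hs
    simp at hs
  · obtain ⟨g, hg1, hg2, hg3⟩ := block l j hj
    have h00 : q (2 ^ l * 0) = 0 := by rw [Nat.mul_zero]; exact q_zero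
    rcases hg2 with hg | hg
    · refine ⟨⟨a, by omega, fun s _ => ?_⟩, ⟨0, by omega, fun s _ => ?_⟩⟩
      · rw [hg3, hg3]; exact hg (q_nn _) (q_nn _) (ha2 s)
      · rw [hg3, hg3]; exact hg (q_nn _) (q_nn _) (by rw [h00]; exact q_nn _)
    · refine ⟨⟨0, by omega, fun s _ => ?_⟩, ⟨a, by omega, fun s _ => ?_⟩⟩
      · rw [hg3, hg3]; exact hg (q_nn _) (q_nn _) (by rw [h00]; exact q_nn _)
      · rw [hg3, hg3]; exact hg (q_nn _) (q_nn _) (ha2 s)

/-- the last position of a block -/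
def G : ℕ → ℚ → ℚ
  | 0, x => x
  | l + 1, x => G l (F l (-1) x)

lemma q_G (l : ℕ) : ∀ r : ℕ, q (2 ^ l * r + (2 ^ l - 1)) = G l (q (2 ^ l * r)) := by
  induction l with
  | zero => intro r; simp [G]
  | succ l ih =>
    intro r
    have hpos : 0 < 2 ^ l := by positivity
    have e1 : 2 ^ (l + 1) * r + (2 ^ (l + 1) - 1) = 2 ^ l * (2 * r + 1) + (2 ^ l - 1) := by
      have : 2 ^ (l + 1) = 2 * 2 ^ l := by ring
      rw [this]
      have h2 : 2 ^ l * (2 * r + 1) = 2 * 2 ^ l * r + 2 ^ l := by ring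
      rw [h2]
      omega
    have e2 : 2 ^ (l + 1) * r = 2 ^ l * (2 * r) := by ring
    rw [e1, ih, q_F, sg_even, e2]
    rfl

lemma G_mono (l : ℕ) : (Even l → MonotoneOn (G l) (Ici 0)) ∧ (Odd l → AntitoneOn (G l) (Ici 0)) := by
  induction l with
  | zero => exact ⟨fun _ => monotone_id.monotoneOn _, fun h => absurd h (by decide)⟩
  | succ l ih =>
    have hm := F_maps l (-1) (Or.inr rfl)
    refine ⟨fun h => ?_, fun h => ?_⟩
    · have ho : Odd l := by
        rcases Nat.even_or_odd l with h1 | h1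
        · exact absurd h (by simpa [Nat.even_add_one] using h1)
        · exact h1
      exact (ih.2 ho).comp (F_mono l).2 hm
    · have he : Even l := by
        rcases Nat.even_or_odd l with h1 | h1
        · exact h1
        · exact absurd h (by simpa [Nat.odd_add_one] using h1)
      exact fun x hx y hy hxy => (ih.1 he) (hm hy) (hm hx) ((F_mono l).2 hx hy hxy)

lemma t_pow (l : ℕ) : t (2 ^ l - 1) = (-1) ^ l := by
  induction l with
  | zero => simp [t_zero]
  | succ l ih =>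
    have hpos : 0 < 2 ^ l := by positivity
    have : 2 ^ (l + 1) - 1 = 2 * (2 ^ l - 1) + 1 := by
      have : 2 ^ (l + 1) = 2 * 2 ^ l := by ring
      omega
    rw [this, t_odd, ih]
    ring

lemma sg_last (l r : ℕ) : sg (2 ^ l * r + (2 ^ l - 1)) = (-1) ^ l * sg r := by
  unfold sg
  have hpos : 0 < 2 ^ l := by positivity
  have e : 2 ^ l * r + (2 ^ l - 1) + 1 = 2 ^ l * (r + 1) + 0 := by
    have : 2 ^ l * (r + 1) = 2 ^ l * r + 2 ^ l := by ring
    omega
  rw [e, t_add l (r + 1) 0 hpos, t_add l r (2 ^ l - 1) (by omega), t_pow, t_zero]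
  ring

/-- the ratio `X (m + 1) / X m` -/
def p (m : ℕ) : ℚ := 1 + sg m + 1 / q m

lemma p_eq (m : ℕ) (hm : 1 ≤ m) : (X (m + 1) : ℚ) / X m = p m := by
  unfold p q
  rw [X_succ]
  have h1 := Ypos m
  have h2 := Xpos m hm
  unfold sg
  push_cast
  field_simp

/-- the minimum of `p` in a residue class -/
lemma class_p (l j : ℕ) (hj : j < 2 ^ l) :
    ∃ r, 1 ≤ 2 ^ l * r + j ∧ ∀ s, 1 ≤ 2 ^ l * s + j → p (2 ^ l * r + j) ≤ p (2 ^ l * s + j) := by
  rcases Nat.lt_or_ge (j + 1) (2 ^ l) with h | h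
  · obtain ⟨⟨r, hr, hr2⟩, -⟩ := class_ext l j hj
    refine ⟨r, hr, fun s hs => ?_⟩
    unfold p
    rw [sg_block h, sg_block h]
    have := one_div_le_one_div_of_le (q_pos _ hs) (hr2 s hs)
    linarith
  · have hj' : j = 2 ^ l - 1 := by omega
    subst hj'
    have hpos : 0 < 2 ^ l := by positivity
    rcases Nat.even_or_odd l with he | ho
    · refine ⟨2, by omega, fun s hs => ?_⟩
      unfold p
      rw [sg_last, sg_last, he.neg_one_pow, sg_two]
      have h1 : q (2 ^ l * s + (2 ^ l - 1)) ≤ q (2 ^ l * 2 + (2 ^ l - 1)) := by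
        rw [q_G, q_G]
        exact (G_mono l).1 he (q_nn _) (q_nn _) (upper_even he s)
      have h2 := one_div_le_one_div_of_le (q_pos _ hs) h1
      rcases sg_cases s with h3 | h3 <;> rw [h3] <;> push_cast <;> linarith
    · refine ⟨5, by omega, fun s hs => ?_⟩
      have hl : 1 ≤ l := ho.pos
      have heven : ∀ s : ℕ, ∃ i, 2 ^ l * s + (2 ^ l - 1) = 2 * i + 1 := by
        intro s
        obtain ⟨l', rfl⟩ : ∃ l', l = l' + 1 := ⟨l - 1, by omega⟩
        have hp : 0 < 2 ^ l' := by positivity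
        refine ⟨2 ^ l' * s + (2 ^ l' - 1), ?_⟩
        have e1 : 2 ^ (l' + 1) * s = 2 * (2 ^ l' * s) := by ring
        have e2 : 2 ^ (l' + 1) = 2 * 2 ^ l' := by ring
        rw [e1, e2]
        omega
      have hq : ∀ s : ℕ, 1 ≤ 1 / q (2 ^ l * s + (2 ^ l - 1)) ∧ 1 / q (2 ^ l * s + (2 ^ l - 1)) ≤ 3 := by
        intro s
        obtain ⟨i, hi⟩ := heven s
        rw [hi, q_succ, sg_even]
        have h1 := q_nn (2 * i)
        have h2 := q_le (2 * i)
        have h3 : 1 / f (-1) (q (2 * i)) = q (2 * i) + 1 := by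
          unfold f
          push_cast
          have : q (2 * i) + 1 ≠ 0 := by positivity
          field_simp
          ring
        rw [h3]
        constructor <;> linarith
      unfold p
      rw [sg_last, sg_last, ho.neg_one_pow, sg_five]
      rcases sg_cases s with h3 | h3
      · rw [h3]
        obtain ⟨i, rfl⟩ := odd_of_sg h3
        have h1 : q (2 ^ l * (2 * i + 1) + (2 ^ l - 1)) ≤ q (2 ^ l * 5 + (2 ^ l - 1)) := by
          rw [q_G, q_G]
          exact (G_mono l).2 ho (q_nn _) (q_nn _) (q_five ho i)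
        have h2 := one_div_le_one_div_of_le (q_pos _ hs) h1
        push_cast
        linarith
      · rw [h3]
        have := (hq s).1
        have := (hq 5).2
        push_cast
        linarith

/-! ### values -/

lemma q_one : q 1 = 1 := by rw [show 1 = 0 + 1 by ring, q_succ, sg_zero, q_zero]; norm_num [f]

lemma q_two : q 2 = 3 / 2 := by rw [show 2 = 1 + 1 by ring, q_succ, sg_one, q_one]; norm_num [f]

lemma q_three : q 3 = 2 / 5 := by rw [show 3 = 2 + 1 by ring, q_succ, sg_two, q_two]; norm_num [f]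

lemma q_ge (m : ℕ) (hm : 1 ≤ m) : 2 / 5 ≤ q m := by
  have := lower_even (l := 0) (by decide) m hm
  simpa [q_three] using this

lemma q_ge' (m : ℕ) (hm : 4 ≤ m) : 12 / 29 ≤ q m := by
  obtain ⟨a, rfl⟩ : ∃ a, m = a + 3 + 1 := ⟨m - 4, by omega⟩
  have h0 := q_nn (a + 3)
  have hpos : 0 < q (a + 3) + 1 := by linarith
  rw [q_succ]
  rcases sg_cases (a + 3) with h | h
  · rw [h]
    unfold f
    rw [le_div_iff₀ hpos]
    push_cast
    nlinarith
  · rw [h]
    have key : q (a + 3) ≤ 17 / 12 := by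
      rw [show a + 3 = a + 2 + 1 by ring, q_succ]
      have h1 := q_nn (a + 2)
      rcases sg_cases (a + 2) with h2 | h2
      · have h3 : q (a + 2) ≤ 5 / 7 := by
          obtain ⟨i, hi⟩ := odd_of_sg h2
          have h5 := q_ge (2 * i) (by omega)
          rw [hi, q_succ, sg_even]
          unfold f
          rw [div_le_iff₀ (by linarith)]
          push_cast
          linarith
        rw [h2]
        unfold f
        rw [div_le_iff₀ (by linarith)]
        push_cast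
        linarith
      · rw [h2]
        unfold f
        rw [div_le_iff₀ (by linarith)]
        push_cast
        linarith
    unfold f
    rw [le_div_iff₀ hpos]
    push_cast
    linarith

end Pool.Agent.W24.TMR
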